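import Pool.Agent.Lib.MP_117f64_co.Proof

/-!
MP_117f64_co: for all `n ≥ 1` and all integers `r ≥ 0` the inclusion
`N(I_n, r) ⊆ N(I_n, r + 1)` of Čech complexes of the hypercube graph is null-homotopic.
-/

namespace Pool.Agent.Results.MP_117f64_co.CechCubeNull

open Pool.Agent.Lib.MP_117f64_co
open Finset ContinuousMap

/-- **Main result.**  For every `n ≥ 1` and every integer `r ≥ 0`, the Čech complex
`N(I_n, r)` of the hypercube graph is a subcomplex of `N(I_n, r + 1)`, and the inclusion of
geometric realizations is null-homotopic. -/
theorem result (n : ℕ) (hn : 1 ≤ n) (r : ℕ) :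
    ∃ h : realization (cech (hypercube n) r) ⊆ realization (cech (hypercube n) (r + 1)),
      (⟨Set.inclusion h, continuous_inclusion h⟩ :
        C(realization (cech (hypercube n) r),
          realization (cech (hypercube n) (r + 1)))).Nullhomotopic := by
  obtain ⟨s, rfl | rfl⟩ := Nat.even_or_odd' r
  · exact even_case hn s
  · exact odd_case s

end Pool.Agent.Results.MP_117f64_co.CechCubeNull
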